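import Mathlib

/-!
# PMT: unions of cycles (helper68)

`Cyc J` says that the classes in `J` contain a cycle.
-/

set_option autoImplicit false

namespace Pool.Agent.NHT

variable {ι : Type}

/-- `C` is a cycle: `C` contains a cycle, but no smaller subset does. -/
def MinCycle [DecidableEq ι] (Cyc : Finset ι → Prop) (C : Finset ι) : Prop :=
  Cyc C ∧ ∀ i ∈ C, ¬ Cyc (C.erase i)

/-- `Z` is a union of pairwise disjoint cycles (possibly of none). -/
def CycleUnion [DecidableEq ι] (Cyc : Finset ι → Prop) (Z : Finset ι) : Prop :=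
  ∃ F : Finset (Finset ι), (∀ C ∈ F, MinCycle Cyc C) ∧
    (∀ C ∈ F, ∀ C' ∈ F, C ≠ C' → Disjoint C C') ∧ F.biUnion id = Z

open Classical in
/-- There is an integer `s` such that the sum of the twist numbers is `s` for an odd number of the
unions `Z` of disjoint cycles of classes with the label `q` (the empty union is one of them), and
differs from `s` by at least `T` for all others. -/
def OddBlock [DecidableEq ι] (J : Finset ι) (Cyc : Finset ι → Prop) (a : ι → ℤ) (p : ι → ℕ)
    (T q : ℕ) : Prop :=
  ∃ s : ℤ,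
    Odd (((J.filter fun i => p i = q).powerset.filter fun Z =>
      CycleUnion Cyc Z ∧ ∑ i ∈ Z, a i = s).card) ∧
    ∀ Z ⊆ J.filter fun i => p i = q, CycleUnion Cyc Z → ∑ i ∈ Z, a i ≠ s →
      (T : ℤ) ≤ |∑ i ∈ Z, a i - s|

end Pool.Agent.NHT
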