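import Pool.Agent.PMT.Block

/-!
# PMT: the alternative `OddBlock` gives a polynomial which is not zero (helper68)
-/

set_option autoImplicit false
set_option linter.unusedSectionVars false

open Submodule Module LaurentPolynomial

namespace Pool.Agent.PMT

open Pool.Agent.SPT Pool.Agent.SPT.Rel Pool.Agent.TRA Pool.Agent.TRP Pool.Agent.NHT

/-- **The alternative `OddBlock`**, in the form of `class_main3` -/
theorem odd_use {ι V : Type} [DecidableEq ι] [DecidableEq V] [AddCommGroup V] [Module (ZMod 2) V]
    (J Q : Finset ι) (Cyc : Finset ι → Prop) (r : ι → V) (p : ι → ℕ) (q : ℕ)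
    (hQ : Q = (J.filter fun i => p i = q)) (hB : Block Q Cyc r) (a u : V → ℤ) (C T : ℕ)
    (hF : Follows (Q.image r) a u C T) (h : OddBlock J Cyc (fun i => a (r i)) p T q) :
    NZu (Q.image r) u := by
  classical
  obtain ⟨s, hodd, hfar⟩ := h
  refine block_odd Q Cyc r hB a u C T hF s ?_ ?_
  · rw [hQ]
    exact hodd
  · rw [hQ]
    exact hfar

end Pool.Agent.PMT
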