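import Mathlib
import Pool.Agent.SPT.Lev

/-!
# PMT: the polynomial of the spanning sets modulo two (helper68)

`X` is a finite set of vectors over the field with two elements. A cut of `X` is the set of the
vectors of `X` at which a linear functional has the value one. Modulo two the coefficient of the set
`S` in the polynomial of `X` is one if `X \ S` is a cut and zero otherwise.
-/

set_option autoImplicit false
set_option linter.unusedSectionVars false

open Submodule

namespace Pool.Agent.PMT

open Pool.Agent.SPT

variable {V : Type} [AddCommGroup V] [Module (ZMod 2) V] [DecidableEq V]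

/-- `Z` is the set of the vectors of `X` at which some linear functional is one -/
def Cut (X Z : Finset V) : Prop :=
  ∃ φ : V →ₗ[ZMod 2] ZMod 2, Z = X.filter fun v => φ v = 1

theorem val_two (x : ZMod 2) : x = 0 ∨ x = 1 := by
  revert x
  decide

theorem Cut.subset {X Z : Finset V} (h : Cut X Z) : Z ⊆ X := by
  obtain ⟨φ, rfl⟩ := h
  exact Finset.filter_subset _ _

theorem cut_empty (X : Finset V) : Cut X ∅ :=
  ⟨0, by simp⟩

/-- the symmetric difference of two cuts is a cut -/
theorem Cut.symm {X Z Z' : Finset V} (h : Cut X Z) (h' : Cut X Z') : Cut X (symmDiff Z Z') := by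
  obtain ⟨φ, rfl⟩ := h
  obtain ⟨ψ, rfl⟩ := h'
  refine ⟨φ + ψ, ?_⟩
  ext v
  rw [Finset.mem_symmDiff, Finset.mem_filter, Finset.mem_filter, Finset.mem_filter,
    LinearMap.add_apply]
  rcases val_two (φ v) with h1 | h1 <;> rcases val_two (ψ v) with h2 | h2 <;> rw [h1, h2]
  · simp
  · simp
  · simp
  · have h3 : ¬ ((1 : ZMod 2) + 1 = 1) := by decide
    simp

open Classical in
/-- the number of the cuts disjoint from `W` has the parity of the spanning condition -/
theorem count (X W : Finset V) (hW : W ⊆ X) :
    ((((X.powerset.filter fun Z => Cut X Z).filter fun Z => Disjoint Z W).card : ℕ) : ZMod 2) =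
      if Spans ⊥ X W then 1 else 0 := by
  have hmem : ∀ Z, Z ∈ ((X.powerset.filter fun Z => Cut X Z).filter fun Z => Disjoint Z W) ↔
      Cut X Z ∧ Disjoint Z W := by
    intro Z
    rw [Finset.mem_filter, Finset.mem_filter, Finset.mem_powerset]
    constructor
    · rintro ⟨⟨_, h1⟩, h2⟩
      exact ⟨h1, h2⟩
    · rintro ⟨h1, h2⟩
      exact ⟨⟨h1.subset, h1⟩, h2⟩
  have hSp : Spans ⊥ X W ↔ span (ZMod 2) (W : Set V) = span (ZMod 2) (X : Set V) := by
    unfold Spans
    rw [bot_sup_eq, bot_sup_eq]
  by_cases hs : Spans ⊥ X W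
  · rw [if_pos hs]
    have h1 : ((X.powerset.filter fun Z => Cut X Z).filter fun Z => Disjoint Z W) = {∅} := by
      ext Z
      rw [hmem, Finset.mem_singleton]
      constructor
      · rintro ⟨⟨φ, hφ⟩, hd⟩
        rw [hφ]
        rw [Finset.filter_eq_empty_iff]
        intro v hv
        have h2 : span (ZMod 2) (W : Set V) ≤ LinearMap.ker φ := by
          rw [span_le]
          intro w hw
          have hw' : w ∈ W := hw
          rcases val_two (φ w) with h3 | h3
          · exact h3
          · exfalso
            exact Finset.disjoint_left.1 hd (by rw [hφ, Finset.mem_filter]; exact ⟨hW hw', h3⟩) hw'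
        have h3 : v ∈ LinearMap.ker φ := by
          apply h2
          rw [hSp.1 hs]
          exact subset_span hv
        rw [LinearMap.mem_ker.1 h3]
        decide
      · rintro rfl
        exact ⟨cut_empty X, Finset.disjoint_empty_left _⟩
    rw [h1]
    simp
  · rw [if_neg hs]
    have hv : ∃ v ∈ X, v ∉ span (ZMod 2) (W : Set V) := by
      by_contra hno
      push Not at hno
      apply hs
      rw [hSp]
      apply le_antisymm (span_mono (Finset.coe_subset.2 hW))
      rw [span_le]
      exact fun v hv => hno v hv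
    obtain ⟨v, hvX, hvW⟩ := hv
    obtain ⟨φ, hφv, hφW⟩ := Submodule.exists_le_ker_of_notMem hvW
    obtain ⟨Z₀, hZ₀⟩ : ∃ Z₀, Z₀ = X.filter fun v => φ v = 1 := ⟨_, rfl⟩
    have hcut : Cut X Z₀ := ⟨φ, hZ₀⟩
    have hvZ : v ∈ Z₀ := by
      rw [hZ₀, Finset.mem_filter]
      refine ⟨hvX, ?_⟩
      rcases val_two (φ v) with h1 | h1
      · exact absurd h1 hφv
      · exact h1
    have hd₀ : Disjoint Z₀ W := by
      rw [Finset.disjoint_left]
      intro w hw hwW
      rw [hZ₀, Finset.mem_filter] at hw
      have h1 : w ∈ LinearMap.ker φ := hφW (subset_span hwW)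
      rw [LinearMap.mem_ker] at h1
      rw [h1] at hw
      exact absurd hw.2 (by decide)
    have h2 : ∑ _Z ∈ ((X.powerset.filter fun Z => Cut X Z).filter fun Z => Disjoint Z W),
        (1 : ZMod 2) = 0 := by
      refine Finset.sum_involution (fun Z _ => symmDiff Z Z₀) (fun _ _ => by decide) ?_ ?_ ?_
      · intro Z hZ _ heq
        have h3 : v ∈ symmDiff Z Z₀ ↔ v ∈ Z := by rw [heq]
        rw [Finset.mem_symmDiff] at h3
        tauto
      · intro Z hZ
        rw [hmem] at hZ ⊢
        refine ⟨hZ.1.symm hcut, ?_⟩
        rw [Finset.disjoint_left]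
        intro w hw hwW
        rw [Finset.mem_symmDiff] at hw
        rcases hw with hw | hw
        · exact Finset.disjoint_left.1 hZ.2 hw.1 hwW
        · exact Finset.disjoint_left.1 hd₀ hw.1 hwW
      · intro Z hZ
        rw [symmDiff_symmDiff_cancel_right]
    rw [Finset.sum_const, nsmul_eq_mul, mul_one] at h2
    exact h2

open Classical in
/-- the coefficients of the polynomial modulo two -/
theorem cc_mod (X S : Finset V) (hS : S ⊆ X) :
    ((cc X S : ℤ) : ZMod 2) = if Cut X (X \ S) then 1 else 0 := by
  unfold cc
  rw [Int.cast_sum]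
  have h1 : ∀ W ∈ X.powerset, (((if Spans ⊥ X W ∧ S ⊆ W then (-1) ^ (W \ S).card else 0 : ℤ)) :
      ZMod 2) = ∑ Z ∈ X.powerset.filter (fun Z => Cut X Z),
        if Disjoint Z W ∧ S ⊆ W then (1 : ZMod 2) else 0 := by
    intro W hW
    rw [Finset.mem_powerset] at hW
    by_cases hSW : S ⊆ W
    · have h2 := count X W hW
      have h3 : ∑ Z ∈ X.powerset.filter (fun Z => Cut X Z),
          (if Disjoint Z W ∧ S ⊆ W then (1 : ZMod 2) else 0) =
          ((((X.powerset.filter fun Z => Cut X Z).filter fun Z => Disjoint Z W).card : ℕ) :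
            ZMod 2) := by
        rw [Finset.card_filter, Nat.cast_sum]
        refine Finset.sum_congr rfl fun Z _ => ?_
        by_cases hd : Disjoint Z W
        · rw [if_pos ⟨hd, hSW⟩, if_pos hd, Nat.cast_one]
        · rw [if_neg fun h => hd h.1, if_neg hd, Nat.cast_zero]
      rw [h3, h2]
      by_cases hs : Spans ⊥ X W
      · rw [if_pos ⟨hs, hSW⟩, if_pos hs, Int.cast_pow, Int.cast_neg, Int.cast_one]
        have h4 : (-1 : ZMod 2) = 1 := by decide
        rw [h4, one_pow]
      · rw [if_neg fun h => hs h.1, if_neg hs, Int.cast_zero]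
    · rw [if_neg fun h => hSW h.2, Int.cast_zero]
      symm
      refine Finset.sum_eq_zero fun Z _ => ?_
      rw [if_neg fun h => hSW h.2]
  rw [Finset.sum_congr rfl h1, Finset.sum_comm]
  have h2 : ∀ Z ∈ X.powerset.filter (fun Z => Cut X Z), (∑ W ∈ X.powerset,
      if Disjoint Z W ∧ S ⊆ W then (1 : ZMod 2) else 0) = if Z = X \ S then 1 else 0 := by
    intro Z hZ
    rw [Finset.mem_filter, Finset.mem_powerset] at hZ
    by_cases hZS : Z = X \ S
    · rw [if_pos hZS]
      rw [Finset.sum_eq_single S]
      · rw [if_pos]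
        refine ⟨?_, subset_rfl⟩
        rw [hZS]
        exact Finset.sdiff_disjoint
      · intro W hW hne
        rw [Finset.mem_powerset] at hW
        rw [if_neg]
        rintro ⟨hd, hSW⟩
        apply hne
        apply Finset.Subset.antisymm _ hSW
        intro w hw
        by_contra hwS
        refine Finset.disjoint_left.1 hd ?_ hw
        rw [hZS, Finset.mem_sdiff]
        exact ⟨hW hw, hwS⟩
      · intro h
        exact absurd (Finset.mem_powerset.2 hS) h
    · rw [if_neg hZS]
      by_cases hdS : Disjoint Z S
      · -- an element outside `Z ∪ S`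
        have h3 : ∃ v ∈ X, v ∉ Z ∧ v ∉ S := by
          by_contra hno
          push Not at hno
          apply hZS
          ext v
          rw [Finset.mem_sdiff]
          constructor
          · intro hv
            exact ⟨hZ.1 hv, fun h => Finset.disjoint_left.1 hdS hv h⟩
          · rintro ⟨hv, hvS⟩
            by_contra hvZ
            exact hvS (hno v hv hvZ)
        obtain ⟨v, hvX, hvZ, hvS⟩ := h3
        refine Finset.sum_involution (fun W _ => symmDiff W {v}) ?_ ?_ ?_ ?_
        · intro W hW
          have h4 : (Disjoint Z (symmDiff W {v}) ∧ S ⊆ symmDiff W {v}) ↔ (Disjoint Z W ∧ S ⊆ W) := by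
            constructor
            · rintro ⟨h5, h6⟩
              constructor
              · rw [Finset.disjoint_left] at h5 ⊢
                intro w hwZ hwW
                refine h5 hwZ ?_
                rw [Finset.mem_symmDiff, Finset.mem_singleton]
                left
                refine ⟨hwW, ?_⟩
                rintro rfl
                exact hvZ hwZ
              · intro w hw
                have h7 := h6 hw
                rw [Finset.mem_symmDiff, Finset.mem_singleton] at h7
                rcases h7 with h7 | h7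
                · exact h7.1
                · exfalso
                  rw [h7.1] at hw
                  exact hvS hw
            · rintro ⟨h5, h6⟩
              constructor
              · rw [Finset.disjoint_left] at h5 ⊢
                intro w hwZ hwW
                rw [Finset.mem_symmDiff, Finset.mem_singleton] at hwW
                rcases hwW with hwW | hwW
                · exact h5 hwZ hwW.1
                · rw [hwW.1] at hwZ
                  exact hvZ hwZ
              · intro w hw
                rw [Finset.mem_symmDiff, Finset.mem_singleton]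
                left
                refine ⟨h6 hw, ?_⟩
                rintro rfl
                exact hvS hw
          by_cases h5 : Disjoint Z W ∧ S ⊆ W
          · rw [if_pos h5, if_pos (h4.2 h5)]
            decide
          · rw [if_neg h5, if_neg fun h => h5 (h4.1 h)]
            decide
        · intro W hW _ heq
          have h3 : v ∈ symmDiff W {v} ↔ v ∈ W := by rw [heq]
          rw [Finset.mem_symmDiff, Finset.mem_singleton] at h3
          tauto
        · intro W hW
          rw [Finset.mem_powerset] at hW ⊢
          intro w hw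
          rw [Finset.mem_symmDiff, Finset.mem_singleton] at hw
          rcases hw with hw | hw
          · exact hW hw.1
          · rw [hw.1]
            exact hvX
        · intro W hW
          rw [symmDiff_symmDiff_cancel_right]
      · refine Finset.sum_eq_zero fun W _ => ?_
        rw [if_neg]
        rintro ⟨hd, hSW⟩
        exact hdS (Finset.disjoint_of_subset_right hSW hd)
  rw [Finset.sum_congr rfl h2, Finset.sum_ite_eq']
  by_cases hc : Cut X (X \ S)
  · rw [if_pos, if_pos hc]
    rw [Finset.mem_filter, Finset.mem_powerset]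
    exact ⟨Finset.sdiff_subset, hc⟩
  · rw [if_neg, if_neg hc]
    intro h
    rw [Finset.mem_filter] at h
    exact hc h.2

open Classical in
/-- If the polynomial vanishes on the circle, then the number of the cuts with a given sum is even. -/
theorem even_cuts (X : Finset V) (u : V → ℤ) (h : ¬ NZu X u) (s : ℤ) :
    Even (X.powerset.filter fun Z => Cut X Z ∧ ∑ v ∈ Z, u v = s).card := by
  rw [← ZMod.natCast_eq_zero_iff_even, Finset.card_filter, Nat.cast_sum]
  have h1 := congrArg (fun n : ℤ => (n : ZMod 2)) (level_cc X u h (∑ v ∈ X, u v - s))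
  simp only [Int.cast_sum, Int.cast_zero] at h1
  rw [← h1]
  rw [Finset.sum_filter]
  refine Finset.sum_bij' (fun Z _ => X \ Z) (fun S _ => X \ S) ?_ ?_ ?_ ?_ ?_
  · intro Z _
    exact Finset.mem_powerset.2 Finset.sdiff_subset
  · intro S _
    exact Finset.mem_powerset.2 Finset.sdiff_subset
  · intro Z hZ
    exact Finset.sdiff_sdiff_eq_self (Finset.mem_powerset.1 hZ)
  · intro S hS
    exact Finset.sdiff_sdiff_eq_self (Finset.mem_powerset.1 hS)
  · intro Z hZ
    rw [Finset.mem_powerset] at hZ
    have h2 : ∑ v ∈ X \ Z, u v + ∑ v ∈ Z, u v = ∑ v ∈ X, u v := Finset.sum_sdiff hZ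
    rw [cc_mod X (X \ Z) Finset.sdiff_subset, Finset.sdiff_sdiff_eq_self hZ]
    by_cases hc : Cut X Z
    · by_cases hs : ∑ v ∈ Z, u v = s
      · rw [if_pos ⟨hc, hs⟩, if_pos (by omega), if_pos hc, Nat.cast_one]
      · rw [if_neg fun h => hs h.2, if_neg (by omega), Nat.cast_zero]
    · rw [if_neg fun h => hc h.1, if_neg hc, Nat.cast_zero, ite_self]

/-- **Partners**: if the polynomial vanishes on the circle, then every cut has a partner: another
cut with the same sum. -/
theorem partner_cut (X : Finset V) (u : V → ℤ) (h : ¬ NZu X u) (Z : Finset V) (hZ : Cut X Z) :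
    ∃ Z', Cut X Z' ∧ Z' ≠ Z ∧ ∑ v ∈ Z', u v = ∑ v ∈ Z, u v := by
  classical
  by_contra hno
  push Not at hno
  have h1 := even_cuts X u h (∑ v ∈ Z, u v)
  have h2 : (X.powerset.filter fun Z' => Cut X Z' ∧ ∑ v ∈ Z', u v = ∑ v ∈ Z, u v) = {Z} := by
    ext Z'
    rw [Finset.mem_filter, Finset.mem_powerset, Finset.mem_singleton]
    constructor
    · rintro ⟨_, h3, h4⟩
      by_contra hne
      exact hno Z' h3 hne h4
    · rintro rfl
      exact ⟨hZ.subset, hZ, rfl⟩
  rw [h2, Finset.card_singleton] at h1
  exact absurd h1 (by decide)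

/-- **Main statement**: a cut `Z` such that, with the signs of `Z`, no nonempty cut has a small sum,
forces the polynomial to be nonzero somewhere on the circle. -/
theorem mod_two (X : Finset V) (a u : V → ℤ) (C T : ℕ) (hF : Follows X a u C T) (Z : Finset V)
    (hZ : Cut X Z) (hW : ∀ W, Cut X W → W.Nonempty →
      (T : ℤ) ≤ |∑ v ∈ W \ Z, a v - ∑ v ∈ W ∩ Z, a v|) : NZu X u := by
  by_contra h
  obtain ⟨Z', hZ', hne, hs⟩ := partner_cut X u h Z hZ
  have h1 := hW (symmDiff Z Z') (hZ.symm hZ') (by
    rw [Finset.nonempty_iff_ne_empty]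
    intro h2
    apply hne
    have h3 : symmDiff Z Z' = ⊥ := h2
    exact (symmDiff_eq_bot.1 h3).symm)
  have h2 : symmDiff Z Z' \ Z = Z' \ Z := by
    ext v
    simp only [Finset.mem_sdiff, Finset.mem_symmDiff]
    tauto
  have h3 : symmDiff Z Z' ∩ Z = Z \ Z' := by
    ext v
    simp only [Finset.mem_inter, Finset.mem_sdiff, Finset.mem_symmDiff]
    tauto
  rw [h2, h3] at h1
  have h4 : ∑ v ∈ Z' \ Z, a v + ∑ v ∈ Z' ∩ Z, a v = ∑ v ∈ Z', a v := by
    rw [← Finset.sum_union (Finset.disjoint_sdiff_inter Z' Z), Finset.sdiff_union_inter]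
  have h5 : ∑ v ∈ Z \ Z', a v + ∑ v ∈ Z ∩ Z', a v = ∑ v ∈ Z, a v := by
    rw [← Finset.sum_union (Finset.disjoint_sdiff_inter Z Z'), Finset.sdiff_union_inter]
  rw [Finset.inter_comm] at h5
  have h6 : (T : ℤ) ≤ |∑ v ∈ Z', a v - ∑ v ∈ Z, a v| := by
    have h7 : ∑ v ∈ Z', a v - ∑ v ∈ Z, a v = ∑ v ∈ Z' \ Z, a v - ∑ v ∈ Z \ Z', a v := by
      rw [← h4, ← h5]
      ring
    rw [h7]
    exact h1
  exact (hF Z' hZ'.subset Z hZ.subset).1 h6 hs

end Pool.Agent.PMT
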