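import Pool.Agent.NHT.St
import Pool.Agent.PMT.Mod2
import Pool.Agent.PMT.Defs

/-!
# PMT: the polynomial modulo two, class form (helper68)
-/

set_option autoImplicit false
set_option linter.unusedSectionVars false

open Submodule

namespace Pool.Agent.PMT

open Pool.Agent.SPT Pool.Agent.NHT Pool.Agent.TRA Pool.Agent.TRP Pool.Agent.SPT.Rel

section
variable {V : Type} [AddCommGroup V] [Module (ZMod 2) V] [DecidableEq V]

open Classical in
/-- **Odd numbers of cuts**: if an odd number of cuts has the `u`-sum `s`, the polynomial is not zero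
on the circle. -/
theorem NZu_odd (X : Finset V) (u : V → ℤ) (s : ℤ)
    (h : Odd (X.powerset.filter fun Z => Cut X Z ∧ ∑ v ∈ Z, u v = s).card) : NZu X u := by
  by_contra hn
  exact (Nat.not_even_iff_odd.2 h) (even_cuts X u hn s)

open Classical in
/-- the same for a vector followed by `u` -/
theorem follows_odd (X : Finset V) (a u : V → ℤ) (C T : ℕ) (hF : Follows X a u C T) (s : ℤ)
    (h : Odd (X.powerset.filter fun Z => Cut X Z ∧ ∑ v ∈ Z, a v = s).card)
    (hfar : ∀ Z, Cut X Z → ∑ v ∈ Z, a v ≠ s → (T : ℤ) ≤ |∑ v ∈ Z, a v - s|) : NZu X u := by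
  have hne : (X.powerset.filter fun Z => Cut X Z ∧ ∑ v ∈ Z, a v = s).Nonempty := by
    rw [← Finset.card_pos]
    exact h.pos
  obtain ⟨Z₀, hZ₀⟩ := hne
  rw [Finset.mem_filter, Finset.mem_powerset] at hZ₀
  obtain ⟨hX₀, hc₀, hs₀⟩ := hZ₀
  refine NZu_odd X u (∑ v ∈ Z₀, u v) ?_
  have h1 : (X.powerset.filter fun Z => Cut X Z ∧ ∑ v ∈ Z, u v = ∑ v ∈ Z₀, u v) =
      (X.powerset.filter fun Z => Cut X Z ∧ ∑ v ∈ Z, a v = s) := by
    refine Finset.filter_congr fun Z hZ => ?_
    rw [Finset.mem_powerset] at hZ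
    constructor
    · rintro ⟨hc, hu⟩
      refine ⟨hc, ?_⟩
      by_contra hne
      have h2 := hfar Z hc hne
      rw [← hs₀] at h2
      exact (hF Z hZ Z₀ hX₀).1 h2 hu
    · rintro ⟨hc, hs⟩
      refine ⟨hc, (hF Z hZ Z₀ hX₀).2 ?_⟩
      rw [hs, hs₀, sub_self, abs_zero]
      exact Int.natCast_nonneg C
  rw [h1]
  exact h

/-- a set of vectors contains a nonempty cut if and only if its complement does not span -/
theorem cut_iff (X J : Finset V) (_ : J ⊆ X) :
    ¬ Co X J ↔ ∃ Z, Cut X Z ∧ Z.Nonempty ∧ Z ⊆ J := by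
  unfold Co
  constructor
  · intro h
    have h1 : ∃ v ∈ X, v ∉ span (ZMod 2) ((X \ J : Finset V) : Set V) := by
      by_contra hno
      push Not at hno
      apply h
      apply le_antisymm (span_mono (Finset.coe_subset.2 Finset.sdiff_subset))
      rw [span_le]
      exact fun v hv => hno v hv
    obtain ⟨v, hvX, hv⟩ := h1
    obtain ⟨φ, hφv, hφ⟩ := Submodule.exists_le_ker_of_notMem hv
    refine ⟨X.filter fun v => φ v = 1, ⟨φ, rfl⟩, ⟨v, ?_⟩, ?_⟩
    · rw [Finset.mem_filter]
      exact ⟨hvX, (val_two (φ v)).resolve_left hφv⟩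
    · intro w hw
      rw [Finset.mem_filter] at hw
      by_contra hwJ
      have h2 : w ∈ LinearMap.ker φ :=
        hφ (subset_span (Finset.mem_coe.2 (Finset.mem_sdiff.2 ⟨hw.1, hwJ⟩)))
      rw [LinearMap.mem_ker] at h2
      rw [h2] at hw
      exact absurd hw.2 (by decide)
  · rintro ⟨Z, ⟨φ, hφ⟩, ⟨v, hv⟩, hZJ⟩ h
    have h1 : span (ZMod 2) ((X \ J : Finset V) : Set V) ≤ LinearMap.ker φ := by
      rw [span_le]
      intro w hw
      rw [Finset.mem_coe, Finset.mem_sdiff] at hw
      rcases val_two (φ w) with h2 | h2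
      · exact h2
      · exfalso
        refine hw.2 (hZJ ?_)
        rw [hφ, Finset.mem_filter]
        exact ⟨hw.1, h2⟩
    rw [hφ, Finset.mem_filter] at hv
    have h2 : v ∈ LinearMap.ker φ := by
      apply h1
      rw [h]
      exact subset_span hv.1
    rw [LinearMap.mem_ker] at h2
    rw [h2] at hv
    exact absurd hv.2 (by decide)

end

section
variable {ι V : Type} [DecidableEq ι] [AddCommGroup V] [Module (ZMod 2) V] [DecidableEq V]

/-- subsets with the same image are equal -/
theorem image_inj {Q : Finset ι} {r : ι → V} (hinj : Set.InjOn r (Q : Set ι)) {A B : Finset ι}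
    (hA : A ⊆ Q) (hB : B ⊆ Q) (h : A.image r = B.image r) : A = B := by
  ext i
  constructor
  · intro hi
    have h1 : r i ∈ B.image r := by
      rw [← h]
      exact Finset.mem_image_of_mem r hi
    obtain ⟨j, hj, hij⟩ := Finset.mem_image.1 h1
    have h2 := hinj (hB hj) (hA hi) hij
    rw [← h2]
    exact hj
  · intro hi
    have h1 : r i ∈ A.image r := by
      rw [h]
      exact Finset.mem_image_of_mem r hi
    obtain ⟨j, hj, hij⟩ := Finset.mem_image.1 h1
    have h2 := hinj (hA hj) (hB hi) hij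
    rw [← h2]
    exact hj

/-- the cuts of the rows as sets of classes -/
theorem preimage_cut {Q : Finset ι} {r : ι → V} {Z : Finset V} (hZ : Z ⊆ Q.image r) :
    (Q.filter fun i => r i ∈ Z).image r = Z := by
  ext v
  rw [Finset.mem_image]
  constructor
  · rintro ⟨i, hi, rfl⟩
    exact (Finset.mem_filter.1 hi).2
  · intro hv
    obtain ⟨i, hi, rfl⟩ := Finset.mem_image.1 (hZ hv)
    exact ⟨i, Finset.mem_filter.2 ⟨hi, hv⟩, rfl⟩

/-- a set of classes contains a cycle if and only if its rows contain a nonempty cut -/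
theorem cyc_iff {Q : Finset ι} {Cyc : Finset ι → Prop} {r : ι → V} (hB : Block Q Cyc r)
    {J : Finset ι} (hJ : J ⊆ Q) :
    Cyc J ↔ ∃ Z ⊆ J, Z.Nonempty ∧ Cut (Q.image r) (Z.image r) := by
  have h1 : Cyc J ↔ ¬ Co (Q.image r) (J.image r) := by
    rw [← hB.co J hJ, not_not]
  rw [h1, cut_iff (Q.image r) (J.image r) (Finset.image_subset_image hJ)]
  constructor
  · rintro ⟨Z, hZ, hne, hZJ⟩
    have hZQ : Z ⊆ Q.image r := hZ.subset
    refine ⟨Q.filter fun i => r i ∈ Z, ?_, ?_, ?_⟩
    · intro i hi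
      rw [Finset.mem_filter] at hi
      obtain ⟨j, hj, hij⟩ := Finset.mem_image.1 (hZJ hi.2)
      have h2 := hB.inj (hJ hj) hi.1 hij
      rw [← h2]
      exact hj
    · obtain ⟨v, hv⟩ := hne
      obtain ⟨i, hi, rfl⟩ := Finset.mem_image.1 (hZQ hv)
      exact ⟨i, Finset.mem_filter.2 ⟨hi, hv⟩⟩
    · rw [preimage_cut hZQ]
      exact hZ
  · rintro ⟨Z, hZJ, hne, hZ⟩
    exact ⟨Z.image r, hZ, hne.image r, Finset.image_subset_image hZJ⟩

/-- images of symmetric differences -/
theorem image_symm {Q : Finset ι} {r : ι → V} (hinj : Set.InjOn r (Q : Set ι)) {A B : Finset ι}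
    (hA : A ⊆ Q) (hB : B ⊆ Q) :
    (symmDiff A B).image r = symmDiff (A.image r) (B.image r) := by
  ext v
  simp only [Finset.mem_image, Finset.mem_symmDiff]
  constructor
  · rintro ⟨i, hi, rfl⟩
    rcases hi with hi | hi
    · left
      refine ⟨⟨i, hi.1, rfl⟩, ?_⟩
      rintro ⟨j, hj, hij⟩
      have h1 := hinj (hB hj) (hA hi.1) hij
      rw [h1] at hj
      exact hi.2 hj
    · right
      refine ⟨⟨i, hi.1, rfl⟩, ?_⟩
      rintro ⟨j, hj, hij⟩
      have h1 := hinj (hA hj) (hB hi.1) hij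
      rw [h1] at hj
      exact hi.2 hj
  · rintro (⟨⟨i, hi, rfl⟩, h⟩ | ⟨⟨i, hi, rfl⟩, h⟩)
    · exact ⟨i, Or.inl ⟨hi, fun h2 => h ⟨i, h2, rfl⟩⟩, rfl⟩
    · exact ⟨i, Or.inr ⟨hi, fun h2 => h ⟨i, h2, rfl⟩⟩, rfl⟩

/-- a cycle is a cut -/
theorem minCycle_cut {Q : Finset ι} {Cyc : Finset ι → Prop} {r : ι → V} (hB : Block Q Cyc r)
    {C : Finset ι} (hC : C ⊆ Q) (h : MinCycle Cyc C) : Cut (Q.image r) (C.image r) := by
  obtain ⟨Z, hZC, hne, hZ⟩ := (cyc_iff hB hC).1 h.1
  have h1 : Z = C := by
    apply Finset.Subset.antisymm hZC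
    intro i hi
    by_contra hiZ
    apply h.2 i hi
    rw [cyc_iff hB ((Finset.erase_subset _ _).trans hC)]
    refine ⟨Z, fun j hj => ?_, hne, hZ⟩
    rw [Finset.mem_erase]
    exact ⟨fun h2 => hiZ (h2 ▸ hj), hZC hj⟩
  rw [← h1]
  exact hZ

/-- a union of disjoint cycles is a cut -/
theorem cycleUnion_cut {Q : Finset ι} {Cyc : Finset ι → Prop} {r : ι → V} (hB : Block Q Cyc r)
    {Z : Finset ι} (hZ : Z ⊆ Q) (h : CycleUnion Cyc Z) : Cut (Q.image r) (Z.image r) := by
  obtain ⟨F, hF, hd, rfl⟩ := h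
  revert hF hd hZ
  induction F using Finset.induction_on with
  | empty =>
    intro _ _ _
    rw [Finset.biUnion_empty, Finset.image_empty]
    exact cut_empty _
  | insert C F hCF ih =>
    intro hF hd hZ
    rw [Finset.biUnion_insert, id] at hZ ⊢
    have hC : C ⊆ Q := Finset.subset_union_left.trans hZ
    have hF' : F.biUnion id ⊆ Q := Finset.subset_union_right.trans hZ
    have h1 := minCycle_cut hB hC (hF C (Finset.mem_insert_self C F))
    have h2 := ih (fun C' hC' => hF C' (Finset.mem_insert_of_mem hC'))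
      (fun C' hC' C'' hC'' => hd C' (Finset.mem_insert_of_mem hC') C''
        (Finset.mem_insert_of_mem hC'')) hF'
    have h3 : Disjoint C (F.biUnion id) := by
      rw [Finset.disjoint_biUnion_right]
      intro C' hC'
      refine hd C (Finset.mem_insert_self C F) C' (Finset.mem_insert_of_mem hC') ?_
      rintro rfl
      exact hCF hC'
    have h4 : C ∪ F.biUnion id = symmDiff C (F.biUnion id) := by
      rw [h3.symmDiff_eq_sup]
      rfl
    rw [h4, image_symm hB.inj hC hF']
    exact h1.symm h2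

/-- a cut is a union of disjoint cycles -/
theorem cut_cycleUnion {Q : Finset ι} {Cyc : Finset ι → Prop} {r : ι → V} (hB : Block Q Cyc r) :
    ∀ (n : ℕ) (Z : Finset ι), Z.card = n → Z ⊆ Q → Cut (Q.image r) (Z.image r) →
      CycleUnion Cyc Z := by
  intro n
  induction n using Nat.strong_induction_on with
  | _ n ih =>
    intro Z hn hZ hcut
    rcases Z.eq_empty_or_nonempty with rfl | hne
    · exact ⟨∅, by simp, by simp, by simp⟩
    classical
    -- a minimal nonempty cut in `Z`
    obtain ⟨C, hC, hmin⟩ := Finset.exists_min_image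
      (Z.powerset.filter fun C => C.Nonempty ∧ Cut (Q.image r) (C.image r)) Finset.card
      ⟨Z, Finset.mem_filter.2 ⟨Finset.mem_powerset.2 (Finset.Subset.refl Z), hne, hcut⟩⟩
    rw [Finset.mem_filter, Finset.mem_powerset] at hC
    obtain ⟨hCZ, hCne, hCcut⟩ := hC
    have hCQ : C ⊆ Q := hCZ.trans hZ
    have hMC : MinCycle Cyc C := by
      refine ⟨(cyc_iff hB hCQ).2 ⟨C, Finset.Subset.refl C, hCne, hCcut⟩, fun i hi hcyc => ?_⟩
      obtain ⟨D, hDC, hDne, hDcut⟩ :=
        (cyc_iff hB ((Finset.erase_subset _ _).trans hCQ)).1 hcyc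
      have h1 := hmin D (Finset.mem_filter.2 ⟨Finset.mem_powerset.2
        (hDC.trans ((Finset.erase_subset _ _).trans hCZ)), hDne, hDcut⟩)
      have h2 := Finset.card_le_card hDC
      rw [Finset.card_erase_of_mem hi] at h2
      have h3 := Finset.card_pos.2 hCne
      omega
    -- the rest is a cut
    have hsd : symmDiff Z C = Z \ C := by
      ext i
      rw [Finset.mem_symmDiff, Finset.mem_sdiff]
      constructor
      · rintro (h | h)
        · exact h
        · exact absurd (hCZ h.1) h.2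
      · intro h
        exact Or.inl h
    have hrest : Cut (Q.image r) ((Z \ C).image r) := by
      rw [← hsd, image_symm hB.inj hZ hCQ]
      exact hcut.symm hCcut
    have hcard : (Z \ C).card < n := by
      have h1 := Finset.card_sdiff_add_card_eq_card hCZ
      have h2 := Finset.card_pos.2 hCne
      omega
    obtain ⟨F, hF, hd, hFZ⟩ := ih (Z \ C).card hcard (Z \ C) rfl
      (Finset.sdiff_subset.trans hZ) hrest
    have hsub : ∀ C' ∈ F, C' ⊆ Z \ C := by
      intro C' hC'
      rw [← hFZ]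
      exact Finset.subset_biUnion_of_mem id hC'
    refine ⟨insert C F, ?_, ?_, ?_⟩
    · intro C' hC'
      rw [Finset.mem_insert] at hC'
      rcases hC' with rfl | hC'
      · exact hMC
      · exact hF C' hC'
    · intro C₁ h₁ C₂ h₂ hne'
      rw [Finset.mem_insert] at h₁ h₂
      rcases h₁ with rfl | h₁ <;> rcases h₂ with rfl | h₂
      · exact absurd rfl hne'
      · exact Finset.disjoint_of_subset_right (hsub C₂ h₂) Finset.disjoint_sdiff
      · exact Finset.disjoint_of_subset_left (hsub C₁ h₁) Finset.sdiff_disjoint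
      · exact hd C₁ h₁ C₂ h₂ hne'
    · rw [Finset.biUnion_insert, id, hFZ]
      exact Finset.union_sdiff_of_subset hCZ

/-- **Cycle unions are cuts** -/
theorem cycleUnion_iff {Q : Finset ι} {Cyc : Finset ι → Prop} {r : ι → V} (hB : Block Q Cyc r)
    {Z : Finset ι} (hZ : Z ⊆ Q) : CycleUnion Cyc Z ↔ Cut (Q.image r) (Z.image r) :=
  ⟨cycleUnion_cut hB hZ, cut_cycleUnion hB Z.card Z rfl hZ⟩

open Classical in
/-- **The class form**: if the sum of the numbers `a` is `s` for an odd number of the unions of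
disjoint cycles, and differs from `s` by at least `T` for the others, then the polynomial is not zero
on the circle. -/
theorem block_odd (Q : Finset ι) (Cyc : Finset ι → Prop) (r : ι → V) (hB : Block Q Cyc r)
    (a u : V → ℤ) (C T : ℕ) (hF : Follows (Q.image r) a u C T) (s : ℤ)
    (hodd : Odd ((Q.powerset.filter fun Z =>
      CycleUnion Cyc Z ∧ ∑ i ∈ Z, a (r i) = s).card))
    (hfar : ∀ Z ⊆ Q, CycleUnion Cyc Z → ∑ i ∈ Z, a (r i) ≠ s →
      (T : ℤ) ≤ |∑ i ∈ Z, a (r i) - s|) : NZu (Q.image r) u := by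
  have hsum : ∀ Z ⊆ Q, ∑ v ∈ Z.image r, a v = ∑ i ∈ Z, a (r i) := fun Z hZ =>
    Finset.sum_image fun i hi j hj hij => hB.inj (hZ hi) (hZ hj) hij
  refine follows_odd (Q.image r) a u C T hF s ?_ ?_
  · have h1 : ((Q.image r).powerset.filter fun Z => Cut (Q.image r) Z ∧ ∑ v ∈ Z, a v = s) =
        (Q.powerset.filter fun Z => CycleUnion Cyc Z ∧ ∑ i ∈ Z, a (r i) = s).image
          (fun Z => Z.image r) := by
      ext Z
      rw [Finset.mem_filter, Finset.mem_powerset, Finset.mem_image]
      constructor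
      · rintro ⟨hZ, hc, hs⟩
        refine ⟨Q.filter fun i => r i ∈ Z, ?_, preimage_cut hZ⟩
        rw [Finset.mem_filter, Finset.mem_powerset]
        refine ⟨Finset.filter_subset _ _, ?_, ?_⟩
        · rw [cycleUnion_iff hB (Finset.filter_subset _ _), preimage_cut hZ]
          exact hc
        · rw [← hsum _ (Finset.filter_subset _ _), preimage_cut hZ]
          exact hs
      · rintro ⟨Z', hZ', rfl⟩
        rw [Finset.mem_filter, Finset.mem_powerset] at hZ'
        refine ⟨Finset.image_subset_image hZ'.1, (cycleUnion_iff hB hZ'.1).1 hZ'.2.1, ?_⟩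
        rw [hsum Z' hZ'.1]
        exact hZ'.2.2
    rw [h1, Finset.card_image_of_injOn]
    · exact hodd
    · intro A hA B hB' hAB
      rw [Finset.mem_coe, Finset.mem_filter, Finset.mem_powerset] at hA hB'
      exact image_inj hB.inj hA.1 hB'.1 hAB
  · intro Z hc hs
    have hZ := hc.subset
    have h1 := hfar (Q.filter fun i => r i ∈ Z) (Finset.filter_subset _ _)
      ((cycleUnion_iff hB (Finset.filter_subset _ _)).2 (by rw [preimage_cut hZ]; exact hc))
    rw [← hsum _ (Finset.filter_subset _ _), preimage_cut hZ] at h1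
    exact h1 hs

end

end Pool.Agent.PMT
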